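import Pool.Agent.TH703.HU.Stm
import Pool.Agent.TH73.MI.Basic

/-!
# Project HU, A1: volumes of cylindrical sets (helper952 for helper703)
-/

set_option autoImplicit false

open MeasureTheory Set Metric Filter Topology
open scoped ENNReal Real

noncomputable section

namespace Pool.Agent.TH952.HU

open Pool.Agent.TH304.MI Pool.Agent.TH703.HU

/-- the inverse of the splitting, as a linear map -/
def jl (b : ℕ) : ℂ × (Fin b → ℝ) →ₗ[ℝ] PP b where
  toFun q := WithLp.toLp 2 (Fin.cons q.1.re (Fin.cons q.1.im q.2))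
  map_add' q r := by
    ext i
    refine Fin.cases ?_ (fun j => Fin.cases ?_ (fun k => ?_) j) i
    · change (q + r).1.re = q.1.re + r.1.re
      simp
    · change (q + r).1.im = q.1.im + r.1.im
      simp
    · change (q + r).2 k = q.2 k + r.2 k
      simp
  map_smul' t q := by
    ext i
    refine Fin.cases ?_ (fun j => Fin.cases ?_ (fun k => ?_) j) i
    · change (t • q).1.re = t * q.1.re
      simp
    · change (t • q).1.im = t * q.1.im
      simp
    · change (t • q).2 k = t * q.2 k
      simp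

/-- the inverse of the splitting, as a continuous linear map -/
def jn (b : ℕ) : ℂ × (Fin b → ℝ) →L[ℝ] PP b := LinearMap.toContinuousLinearMap (jl b)

theorem xc_jn {b : ℕ} (q : ℂ × (Fin b → ℝ)) : xc (jn b q) = q.1 := by
  apply Complex.ext <;> rfl

theorem yc_jn {b : ℕ} (q : ℂ × (Fin b → ℝ)) : yc (jn b q) = q.2 := by
  funext i
  rfl

theorem jn_mk {b : ℕ} (p : PP b) : jn b (xc p, yc p) = p := by
  ext i
  refine Fin.cases ?_ (fun j => Fin.cases ?_ (fun k => ?_) j) i <;> rfl

/-- the fibres of the body -/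
def fib (m : ℕ) (x : ℂ) : Set (Fin (2 * m + 1) → ℝ) :=
  {y | |x.re| < 1 / 2 + y 0 ∧ |x.im| < 1 / 2 - y 0 ∧
    ∀ i : Fin (2 * m), if (i : ℕ) < m then |y i.succ| < 1 / 2 + y 0
      else |y i.succ| < 1 / 2 - y 0}

theorem mem_Bd {m : ℕ} (p : PP (2 * m + 1)) : p ∈ Bd m ↔ yc p ∈ fib m (xc p) := Iff.rfl

theorem NN_pos (m : ℕ) : 0 < NN m := by
  unfold NN
  apply intervalIntegral.intervalIntegral_pos_of_pos_on
  · exact (by fun_prop : Continuous fun u : ℝ => (1 - 4 * u ^ 2) ^ m).intervalIntegrable _ _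
  · intro x hx
    refine pow_pos ?_ m
    nlinarith [hx.1, hx.2]
  · norm_num

theorem NN_mul_wt (m : ℕ) (x : ℂ) : NN m * wt m x =
    ∫ u in (|x.re| - 1 / 2)..(max (|x.re| - 1 / 2) (1 / 2 - |x.im|)), (1 - 4 * u ^ 2) ^ m := by
  unfold wt
  exact mul_div_cancel₀ _ (NN_pos m).ne'

theorem prod_fib (m : ℕ) (A B : ℝ) :
    ∏ i : Fin (2 * m), (if (i : ℕ) < m then A else B) = A ^ m * B ^ m := by
  rw [Fin.prod_univ_eq_prod_range (fun i => if i < m then A else B) (2 * m), two_mul,
    Finset.prod_range_add]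
  congr 1
  · rw [Finset.prod_congr rfl (g := fun _ => A), Finset.prod_const, Finset.card_range]
    intro i hi
    rw [if_pos (Finset.mem_range.1 hi)]
  · rw [Finset.prod_congr rfl (g := fun _ => B), Finset.prod_const, Finset.card_range]
    intro i _
    rw [if_neg (by omega)]

/-- the set in `ℝ × ℝ^(2m)` -/
def S2 (m : ℕ) (x : ℂ) : Set (ℝ × (Fin (2 * m) → ℝ)) :=
  {q | (|x.re| < 1 / 2 + q.1 ∧ |x.im| < 1 / 2 - q.1) ∧
    ∀ i : Fin (2 * m), |q.2 i| < 1 / 2 + (if (i : ℕ) < m then q.1 else -q.1)}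

theorem isOpen_S2 (m : ℕ) (x : ℂ) : IsOpen (S2 m x) := by
  have h : S2 m x = ({q | |x.re| < 1 / 2 + q.1} ∩ {q | |x.im| < 1 / 2 - q.1}) ∩
      ⋂ i : Fin (2 * m), {q | |q.2 i| < 1 / 2 + (if (i : ℕ) < m then q.1 else -q.1)} := by
    ext q
    simp only [S2, mem_inter_iff, mem_iInter, mem_setOf_eq]
  rw [h]
  refine ((isOpen_lt continuous_const (by fun_prop)).inter
    (isOpen_lt continuous_const (by fun_prop))).inter (isOpen_iInter_of_finite fun i => ?_)
  refine isOpen_lt (by fun_prop) ?_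
  split_ifs <;> fun_prop

theorem vol_fib (m : ℕ) (x : ℂ) : volume (fib m x) = ENNReal.ofReal (NN m * wt m x) := by
  have hmp := volume_preserving_piFinSuccAbove (fun _ : Fin (2 * m + 1) => ℝ) 0
  have h1 : fib m x = (MeasurableEquiv.piFinSuccAbove (fun _ : Fin (2 * m + 1) => ℝ) 0) ⁻¹'
      S2 m x := by
    ext y
    constructor
    · rintro ⟨h1, h2, h3⟩
      refine ⟨⟨h1, h2⟩, fun i => ?_⟩
      have h4 := h3 i
      change |y i.succ| < 1 / 2 + (if (i : ℕ) < m then y 0 else - y 0)
      split_ifs at h4 ⊢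
      · exact h4
      · rw [← sub_eq_add_neg]
        exact h4
    · rintro ⟨⟨h1, h2⟩, h3⟩
      refine ⟨h1, h2, fun i => ?_⟩
      have h4 : |y i.succ| < 1 / 2 + (if (i : ℕ) < m then y 0 else - y 0) := h3 i
      split_ifs at h4 ⊢
      · exact h4
      · rw [← sub_eq_add_neg] at h4
        exact h4
  have h2 : volume (fib m x) = volume (S2 m x) := by
    rw [h1]
    exact hmp.measure_preimage (isOpen_S2 m x).measurableSet.nullMeasurableSet
  set a : ℝ := |x.re| - 1 / 2 with ha
  set c : ℝ := 1 / 2 - |x.im| with hc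
  have ha' : -(1 / 2) ≤ a := by rw [ha]; linarith [abs_nonneg x.re]
  have hc' : c ≤ 1 / 2 := by rw [hc]; linarith [abs_nonneg x.im]
  have h3 : ∀ s : ℝ, volume (Prod.mk s ⁻¹' S2 m x) =
      (Ioo a c).indicator (fun s => ENNReal.ofReal ((1 - 4 * s ^ 2) ^ m)) s := by
    intro s
    by_cases hs : s ∈ Ioo a c
    · rw [indicator_of_mem hs]
      have hs1 : -(1 / 2) < s := lt_of_le_of_lt ha' hs.1
      have hs2 : s < 1 / 2 := lt_of_lt_of_le hs.2 hc'
      have h4 : Prod.mk s ⁻¹' S2 m x = Set.pi univ fun i : Fin (2 * m) =>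
          Ioo (-(1 / 2 + (if (i : ℕ) < m then s else -s)))
            (1 / 2 + (if (i : ℕ) < m then s else -s)) := by
        ext z
        rw [mem_preimage, mem_univ_pi]
        constructor
        · rintro ⟨-, h5⟩ i
          exact abs_lt.1 (h5 i)
        · intro h5
          refine ⟨⟨?_, ?_⟩, fun i => abs_lt.2 (h5 i)⟩
          · have := hs.1
            rw [ha] at this
            change |x.re| < 1 / 2 + s
            linarith
          · have := hs.2
            rw [hc] at this
            change |x.im| < 1 / 2 - s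
            linarith
      rw [h4, Real.volume_pi_Ioo, ← ENNReal.ofReal_prod_of_nonneg]
      · congr 1
        have h5 : ∀ i : Fin (2 * m), (1 / 2 + (if (i : ℕ) < m then s else -s)) -
            -(1 / 2 + (if (i : ℕ) < m then s else -s)) =
            (if (i : ℕ) < m then 1 + 2 * s else 1 - 2 * s) := by
          intro i
          split_ifs <;> ring
        rw [Finset.prod_congr rfl fun i _ => h5 i, prod_fib, ← mul_pow]
        congr 1
        ring
      · intro i _
        split_ifs <;> linarith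
    · rw [indicator_of_notMem hs]
      have h4 : Prod.mk s ⁻¹' S2 m x = ∅ := by
        ext z
        refine ⟨fun h => hs ⟨?_, ?_⟩, fun h => absurd h (notMem_empty _)⟩
        · have h5 : |x.re| < 1 / 2 + s := h.1.1
          rw [ha]
          linarith
        · have h5 : |x.im| < 1 / 2 - s := h.1.2
          rw [hc]
          linarith
      rw [h4, measure_empty]
  rw [h2, Measure.volume_eq_prod, Measure.prod_apply (isOpen_S2 m x).measurableSet,
    lintegral_congr h3, lintegral_indicator measurableSet_Ioo, NN_mul_wt]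
  rw [← ha, ← hc]
  have hcont : Continuous fun u : ℝ => (1 - 4 * u ^ 2) ^ m := by fun_prop
  rw [← ofReal_integral_eq_lintegral_ofReal]
  · congr 1
    rcases le_total c a with hca | hca
    · rw [max_eq_left hca, intervalIntegral.integral_same, Ioo_eq_empty (not_lt.2 hca)]
      simp
    · rw [max_eq_right hca, intervalIntegral.integral_of_le hca, integral_Ioc_eq_integral_Ioo]
  · exact (hcont.integrableOn_Icc (a := a) (b := c)).mono_set Ioo_subset_Icc_self
  · filter_upwards [ae_restrict_mem measurableSet_Ioo] with s hs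
    refine pow_nonneg ?_ m
    have hs1 : -(1 / 2) < s := lt_of_le_of_lt ha' hs.1
    have hs2 : s < 1 / 2 := lt_of_lt_of_le hs.2 hc'
    nlinarith

theorem NN_mul_wt_nonneg (m : ℕ) (x : ℂ) : 0 ≤ NN m * wt m x := by
  rw [NN_mul_wt]
  rcases le_total (1 / 2 - |x.im|) (|x.re| - 1 / 2) with h | h
  · rw [max_eq_left h, intervalIntegral.integral_same]
  · rw [max_eq_right h]
    apply intervalIntegral.integral_nonneg h
    intro u hu
    refine pow_nonneg ?_ m
    have h1 : -(1 / 2) ≤ u := by linarith [hu.1, abs_nonneg x.re]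
    have h2 : u ≤ 1 / 2 := by linarith [hu.2, abs_nonneg x.im]
    nlinarith

/-- the set in the product -/
def S3 (m : ℕ) (A : Set ℂ) : Set (ℂ × (Fin (2 * m + 1) → ℝ)) :=
  {q | q.2 ∈ fib m q.1} ∩ {q | q.1 ∈ A}

theorem isOpen_Bq (m : ℕ) : IsOpen {q : ℂ × (Fin (2 * m + 1) → ℝ) | q.2 ∈ fib m q.1} := by
  have h : {q : ℂ × (Fin (2 * m + 1) → ℝ) | q.2 ∈ fib m q.1} =
      ({q | |q.1.re| < 1 / 2 + q.2 0} ∩ {q | |q.1.im| < 1 / 2 - q.2 0}) ∩
      ⋂ i : Fin (2 * m), {q | if (i : ℕ) < m then |q.2 i.succ| < 1 / 2 + q.2 0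
      else |q.2 i.succ| < 1 / 2 - q.2 0} := by
    ext q
    simp only [fib, mem_inter_iff, mem_iInter, mem_setOf_eq, and_assoc]
  rw [h]
  have hre : Continuous fun q : ℂ × (Fin (2 * m + 1) → ℝ) => q.1.re :=
    Complex.continuous_re.comp continuous_fst
  have him : Continuous fun q : ℂ × (Fin (2 * m + 1) → ℝ) => q.1.im :=
    Complex.continuous_im.comp continuous_fst
  refine ((isOpen_lt hre.abs (by fun_prop)).inter
    (isOpen_lt him.abs (by fun_prop))).inter (isOpen_iInter_of_finite fun i => ?_)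
  split_ifs
  · exact isOpen_lt (by fun_prop) (by fun_prop)
  · exact isOpen_lt (by fun_prop) (by fun_prop)

theorem measurable_NNwt (m : ℕ) : Measurable fun x => NN m * wt m x := by
  have h := measurable_measure_prodMk_left (ν := (volume : Measure (Fin (2 * m + 1) → ℝ)))
    (isOpen_Bq m).measurableSet
  have h2 : (fun x => NN m * wt m x) = fun x => (volume (Prod.mk x ⁻¹'
      {q : ℂ × (Fin (2 * m + 1) → ℝ) | q.2 ∈ fib m q.1})).toReal := by
    funext x
    have h3 : Prod.mk x ⁻¹' {q : ℂ × (Fin (2 * m + 1) → ℝ) | q.2 ∈ fib m q.1} = fib m x := rfl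
    rw [h3, vol_fib, ENNReal.toReal_ofReal (NN_mul_wt_nonneg m x)]
  rw [h2]
  exact h.ennreal_toReal

theorem a1' : S_A1 := by
  intro m A hA
  obtain ⟨e, he, hmp⟩ := Pool.Agent.TH73.MI.t_fub (2 * m + 1)
  have hm3 : MeasurableSet (S3 m A) := (isOpen_Bq m).measurableSet.inter (measurable_fst hA)
  have h1 : cylO (Bd m) A = e ⁻¹' S3 m A := by
    ext p
    rw [mem_preimage, he p]
    rfl
  have h2 : volume (cylO (Bd m) A) = ∫⁻ x in A, ENNReal.ofReal (NN m * wt m x) := by
    rw [h1, hmp.measure_preimage hm3.nullMeasurableSet, Measure.volume_eq_prod,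
      Measure.prod_apply hm3, ← lintegral_indicator hA]
    refine lintegral_congr fun x => ?_
    by_cases hx : x ∈ A
    · rw [indicator_of_mem hx, ← vol_fib]
      congr 1
      ext y
      exact ⟨fun h => h.1, fun h => ⟨h, hx⟩⟩
    · rw [indicator_of_notMem hx]
      have h4 : Prod.mk x ⁻¹' S3 m A = ∅ := by
        ext y
        exact ⟨fun h => absurd h.2 hx, fun h => absurd h (notMem_empty _)⟩
      rw [h4, measure_empty]
  unfold mu
  rw [Measure.real, h2, ← integral_const_mul, integral_eq_lintegral_of_nonneg_ae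
    (Eventually.of_forall fun x => NN_mul_wt_nonneg m x)
    (measurable_NNwt m).aestronglyMeasurable]

/-- **A1.** -/
theorem a1 (_c0 : S_C0) : S_A1 := a1'

end Pool.Agent.TH952.HU
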