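import Pool.Agent.TH952.HU.A1

/-!
# Project HU, A2: the perimeter of a cylindrical set (helper952 for helper703)
-/

set_option autoImplicit false

open MeasureTheory Set Metric Filter Topology
open scoped ENNReal Real

noncomputable section

namespace Pool.Agent.TH952.HU

open Pool.Agent.TH304.MI Pool.Agent.TH703.HU

/-- `xc` as a continuous linear map -/
def xl (b : ℕ) : PP b →L[ℝ] ℂ := LinearMap.toContinuousLinearMap
  { toFun := xc
    map_add' := Pool.Agent.TH73.MI.xc_add
    map_smul' := fun t p => by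
      rw [Pool.Agent.TH73.MI.xc_smul]
      rfl }

theorem xl_apply {b : ℕ} (p : PP b) : xl b p = xc p := rfl

theorem dv_eq {b : ℕ} (φ : PP b → PP b) (p : PP b) :
    dv φ p = (xc (fderiv ℝ φ p (jn b (1, 0)))).re + (xc (fderiv ℝ φ p (jn b (Complex.I, 0)))).im +
      ∑ i : Fin b, yc (fderiv ℝ φ p (jn b (0, Pi.single i 1))) i := by
  have h0 : (EuclideanSpace.single 0 1 : PP b) = jn b (1, 0) := by
    ext i
    refine Fin.cases ?_ (fun j => Fin.cases ?_ (fun k => ?_) j) i
    · change _ = (1 : ℂ).re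
      simp
    · change _ = (1 : ℂ).im
      simp
    · change _ = (0 : ℝ)
      simp
  have h1 : (EuclideanSpace.single (Fin.succ 0) 1 : PP b) = jn b (Complex.I, 0) := by
    ext i
    refine Fin.cases ?_ (fun j => Fin.cases ?_ (fun k => ?_) j) i
    · change _ = (Complex.I : ℂ).re
      simp
    · change _ = (Complex.I : ℂ).im
      simp
    · change _ = (0 : ℝ)
      simp [Fin.succ_succ_ne_one]
  have h2 : ∀ l : Fin b, (EuclideanSpace.single l.succ.succ 1 : PP b) =
      jn b (0, Pi.single l 1) := by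
    intro l
    ext i
    refine Fin.cases ?_ (fun j => Fin.cases ?_ (fun k => ?_) j) i
    · change _ = (0 : ℂ).re
      simp
    · change _ = (0 : ℂ).im
      simp [(Fin.succ_succ_ne_one _).symm]
    · change _ = (Pi.single l 1 : Fin b → ℝ) k
      simp [Pi.single_apply]
  unfold dv
  have hin : ∀ (i : Fin (b + 2)) (L : PP b →ₗ[ℝ] PP b),
      inner ℝ (EuclideanSpace.basisFun (Fin (b + 2)) ℝ i)
        (L (EuclideanSpace.basisFun (Fin (b + 2)) ℝ i)) =
      (L (EuclideanSpace.single i 1)) i := by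
    intro i L
    rw [EuclideanSpace.basisFun_apply, EuclideanSpace.inner_single_left, map_one, one_mul]
  rw [LinearMap.trace_eq_sum_inner _ (EuclideanSpace.basisFun (Fin (b + 2)) ℝ),
    Finset.sum_congr rfl fun i _ => hin i _,
    Fin.sum_univ_succ, Fin.sum_univ_succ, h0, h1, Finset.sum_congr rfl fun l _ => by
      rw [h2 l]]
  exact (add_assoc _ _ _).symm

section gen

variable {b : ℕ} {φ : PP b → PP b}

/-- the projection of the support -/
def K2 (φ : PP b → PP b) : Set (Fin b → ℝ) := yc '' tsupport φ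

theorem continuous_yc' : Continuous (yc : PP b → Fin b → ℝ) :=
  continuous_pi fun i => Pool.Agent.TH73.MI.continuous_yc i

theorem isCompact_K2 (hcs : HasCompactSupport φ) : IsCompact (K2 φ) :=
  hcs.isCompact.image continuous_yc'

theorem notMem_of_K2 {x : ℂ} {y : Fin b → ℝ} (hy : y ∉ K2 φ) : jn b (x, y) ∉ tsupport φ :=
  fun h => hy ⟨_, h, yc_jn _⟩

theorem fd_zero {p : PP b} (hp : p ∉ tsupport φ) : fderiv ℝ φ p = 0 := by
  by_contra h
  exact hp (support_fderiv_subset ℝ (Function.mem_support.2 h))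

theorem cs_fib {E : Type*} [NormedAddCommGroup E] {g : PP b → E} (hcs : HasCompactSupport φ)
    (hg : ∀ p, p ∉ tsupport φ → g p = 0) (x : ℂ) :
    HasCompactSupport fun y : Fin b → ℝ => g (jn b (x, y)) := by
  refine HasCompactSupport.intro (isCompact_K2 hcs) fun y hy => ?_
  exact hg _ (notMem_of_K2 hy)

/-- the integral over the fibres -/
def ZZ (φ : PP b → PP b) (x : ℂ) : ℂ := ∫ y : Fin b → ℝ, xc (φ (jn b (x, y)))

/-- the partial derivative -/
def G' (φ : PP b → PP b) (p : PP b) : ℂ →L[ℝ] ℂ :=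
  (xl b).comp ((fderiv ℝ φ p).comp ((jn b).comp (ContinuousLinearMap.inl ℝ ℂ (Fin b → ℝ))))

theorem G'_apply (p : PP b) (v : ℂ) : G' φ p v = xc (fderiv ℝ φ p (jn b (v, 0))) := rfl

theorem continuous_G' (hcd : ContDiff ℝ 1 φ) : Continuous (G' φ) := by
  unfold G'
  have h := hcd.continuous_fderiv (by norm_num)
  fun_prop

theorem G'_zero {p : PP b} (hp : p ∉ tsupport φ) : G' φ p = 0 := by
  unfold G'
  rw [fd_zero hp, ContinuousLinearMap.zero_comp, ContinuousLinearMap.comp_zero]

theorem cont_fib {E : Type*} [TopologicalSpace E] {g : PP b → E} (hg : Continuous g) (x : ℂ) :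
    Continuous fun y : Fin b → ℝ => g (jn b (x, y)) :=
  hg.comp ((jn b).continuous.comp (by fun_prop))

theorem hasFDerivAt_ZZ (hcd : ContDiff ℝ 1 φ) (hcs : HasCompactSupport φ) (x : ℂ) :
    HasFDerivAt (ZZ φ) (∫ y in K2 φ, G' φ (jn b (x, y))) x := by
  have h0 : ZZ φ = fun x => ∫ y in K2 φ, xc (φ (jn b (x, y))) := by
    funext x
    unfold ZZ
    rw [setIntegral_eq_integral_of_forall_compl_eq_zero]
    intro y hy
    rw [image_eq_zero_of_notMem_tsupport (notMem_of_K2 hy)]
    exact Pool.Agent.TH73.MI.xc_zero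
  rw [h0]
  obtain ⟨M, hM⟩ := (HasCompactSupport.intro hcs.isCompact (f := G' φ)
    fun p hp => G'_zero hp).exists_bound_of_continuous (continuous_G' hcd)
  have hxφ : Continuous fun p => xc (φ p) :=
    Pool.Agent.TH73.MI.continuous_xc.comp hcd.continuous
  have hK := isCompact_K2 hcs
  have hKf : IsFiniteMeasure (volume.restrict (K2 φ)) :=
    ⟨by rw [Measure.restrict_apply_univ]; exact hK.measure_lt_top⟩
  refine hasFDerivAt_integral_of_dominated_of_fderiv_le (s := univ) (bound := fun _ => M)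
    (F' := fun x y => G' φ (jn b (x, y))) univ_mem ?_ ?_ ?_ ?_ ?_ ?_
  · exact Eventually.of_forall fun x => (cont_fib hxφ x).aestronglyMeasurable
  · exact (cont_fib hxφ x).continuousOn.integrableOn_compact hK
  · exact (cont_fib (continuous_G' hcd) x).aestronglyMeasurable
  · exact Eventually.of_forall fun y x _ => hM _
  · exact integrable_const _
  · refine Eventually.of_forall fun y x _ => ?_
    have h1 : HasFDerivAt (fun x : ℂ => (x, y)) (ContinuousLinearMap.inl ℝ ℂ (Fin b → ℝ)) x :=
      hasFDerivAt_prodMk_left x y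
    have h2 := (jn b).hasFDerivAt.comp x h1
    have h3 := ((hcd.differentiable (by norm_num)) (jn b (x, y))).hasFDerivAt.comp x h2
    exact (xl b).hasFDerivAt.comp x h3

theorem contDiff_ZZ (hcd : ContDiff ℝ 1 φ) (hcs : HasCompactSupport φ) :
    ContDiff ℝ 1 (ZZ φ) := by
  rw [contDiff_one_iff_fderiv]
  refine ⟨fun x => (hasFDerivAt_ZZ hcd hcs x).differentiableAt, ?_⟩
  have h : fderiv ℝ (ZZ φ) = fun x => ∫ y in K2 φ, G' φ (jn b (x, y)) :=
    funext fun x => (hasFDerivAt_ZZ hcd hcs x).fderiv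
  rw [h]
  refine continuous_parametric_integral_of_continuous ?_ (isCompact_K2 hcs)
  exact (continuous_G' hcd).comp (jn b).continuous

theorem fderiv_ZZ (hcd : ContDiff ℝ 1 φ) (hcs : HasCompactSupport φ) (x v : ℂ) :
    fderiv ℝ (ZZ φ) x v = ∫ y : Fin b → ℝ, xc (fderiv ℝ φ (jn b (x, y)) (jn b (v, 0))) := by
  rw [(hasFDerivAt_ZZ hcd hcs x).fderiv,
    setIntegral_eq_integral_of_forall_compl_eq_zero fun y hy => G'_zero (notMem_of_K2 hy)]
  have hi : Integrable fun y : Fin b → ℝ => G' φ (jn b (x, y)) :=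
    (cont_fib (continuous_G' hcd) x).integrable_of_hasCompactSupport
      (cs_fib hcs (fun p hp => G'_zero hp) x)
  rw [ContinuousLinearMap.integral_apply hi v]
  rfl

theorem int_y (hcd : ContDiff ℝ 1 φ) (hcs : HasCompactSupport φ) (x : ℂ) (i : Fin b) :
    ∫ y : Fin b → ℝ, yc (fderiv ℝ φ (jn b (x, y)) (jn b (0, Pi.single i 1))) i = 0 := by
  set g : (Fin b → ℝ) → ℝ := fun y => yc (φ (jn b (x, y))) i with hg
  have hL : ∀ y, HasFDerivAt g ((EuclideanSpace.proj (𝕜 := ℝ) i.succ.succ).comp
      ((fderiv ℝ φ (jn b (x, y))).comp ((jn b).comp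
        (ContinuousLinearMap.inr ℝ ℂ (Fin b → ℝ))))) y := by
    intro y
    have h1 : HasFDerivAt (fun y : Fin b → ℝ => (x, y))
        (ContinuousLinearMap.inr ℝ ℂ (Fin b → ℝ)) y := hasFDerivAt_prodMk_right x y
    have h2 := (jn b).hasFDerivAt.comp y h1
    have h3 := ((hcd.differentiable (by norm_num)) (jn b (x, y))).hasFDerivAt.comp y h2
    exact (EuclideanSpace.proj (𝕜 := ℝ) i.succ.succ).hasFDerivAt.comp y h3
  have hfd : ∀ y v, fderiv ℝ g y v = yc (fderiv ℝ φ (jn b (x, y)) (jn b (0, v))) i := by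
    intro y v
    rw [(hL y).fderiv]
    rfl
  have hgc : HasCompactSupport g := by
    refine cs_fib (g := fun p => yc (φ p) i) hcs (fun p hp => ?_) x
    change yc (φ p) i = 0
    rw [image_eq_zero_of_notMem_tsupport hp]
    rfl
  have hgcont : Continuous g := by
    refine cont_fib (g := fun p => yc (φ p) i) ?_ x
    exact (Pool.Agent.TH73.MI.continuous_yc i).comp hcd.continuous
  have hpc : Continuous fun p => yc (fderiv ℝ φ p (jn b (0, Pi.single i 1))) i := by
    refine (Pool.Agent.TH73.MI.continuous_yc i).comp ?_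
    exact (hcd.continuous_fderiv (by norm_num)).clm_apply continuous_const
  have hint : Integrable fun y : Fin b → ℝ =>
      yc (fderiv ℝ φ (jn b (x, y)) (jn b (0, Pi.single i 1))) i := by
    refine Continuous.integrable_of_hasCompactSupport (cont_fib hpc x) ?_
    refine cs_fib (g := fun p => yc (fderiv ℝ φ p (jn b (0, Pi.single i 1))) i) hcs
      (fun p hp => ?_) x
    change yc (fderiv ℝ φ p (jn b (0, Pi.single i 1))) i = 0
    rw [fd_zero hp]
    rfl
  have h := integral_mul_fderiv_eq_neg_fderiv_mul_of_integrable (μ := volume) (𝕜 := ℝ)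
    (f := fun _ : Fin b → ℝ => (1 : ℝ)) (g := g) (v := Pi.single i 1) (by simp)
    (by simpa [hfd] using hint)
    (by simpa using hgcont.integrable_of_hasCompactSupport hgc)
    (fun x _ => differentiableAt_const _) (fun x _ => (hL x).differentiableAt)
  simpa [hfd] using h

theorem continuous_dv (hcd : ContDiff ℝ 1 φ) : Continuous (dv φ) := by
  have h : dv φ = fun p => (xc (fderiv ℝ φ p (jn b (1, 0)))).re +
      (xc (fderiv ℝ φ p (jn b (Complex.I, 0)))).im +
      ∑ i : Fin b, yc (fderiv ℝ φ p (jn b (0, Pi.single i 1))) i := funext fun p => dv_eq φ p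
  rw [h]
  have hf := hcd.continuous_fderiv (by norm_num)
  have hx : ∀ v, Continuous fun p => xc (fderiv ℝ φ p v) := fun v =>
    Pool.Agent.TH73.MI.continuous_xc.comp (hf.clm_apply continuous_const)
  have hy : ∀ v i, Continuous fun p => yc (fderiv ℝ φ p v) i := fun v i =>
    (Pool.Agent.TH73.MI.continuous_yc i).comp (hf.clm_apply continuous_const)
  exact ((Complex.continuous_re.comp (hx _)).add (Complex.continuous_im.comp (hx _))).add
    (continuous_finsetSum _ fun i _ => hy _ i)

theorem dv_zero {p : PP b} (hp : p ∉ tsupport φ) : dv φ p = 0 := by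
  unfold dv
  rw [fd_zero hp]
  simp

theorem dv2_ZZ (hcd : ContDiff ℝ 1 φ) (hcs : HasCompactSupport φ) (x : ℂ) :
    dv2 (ZZ φ) x = ∫ y : Fin b → ℝ, dv φ (jn b (x, y)) := by
  have hf := hcd.continuous_fderiv (by norm_num)
  have hx : ∀ v, Continuous fun p => xc (fderiv ℝ φ p v) := fun v =>
    Pool.Agent.TH73.MI.continuous_xc.comp (hf.clm_apply continuous_const)
  have hy : ∀ v i, Continuous fun p => yc (fderiv ℝ φ p v) i := fun v i =>
    (Pool.Agent.TH73.MI.continuous_yc i).comp (hf.clm_apply continuous_const)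
  have hxi : ∀ v, Integrable fun y : Fin b → ℝ => xc (fderiv ℝ φ (jn b (x, y)) v) := by
    intro v
    refine Continuous.integrable_of_hasCompactSupport (cont_fib (hx v) x) ?_
    refine cs_fib (g := fun p => xc (fderiv ℝ φ p v)) hcs (fun p hp => ?_) x
    change xc (fderiv ℝ φ p v) = 0
    rw [fd_zero hp]
    exact Pool.Agent.TH73.MI.xc_zero
  have hyi : ∀ v i, Integrable fun y : Fin b → ℝ => yc (fderiv ℝ φ (jn b (x, y)) v) i := by
    intro v i
    refine Continuous.integrable_of_hasCompactSupport (cont_fib (hy v i) x) ?_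
    refine cs_fib (g := fun p => yc (fderiv ℝ φ p v) i) hcs (fun p hp => ?_) x
    change yc (fderiv ℝ φ p v) i = 0
    rw [fd_zero hp]
    rfl
  unfold dv2
  rw [fderiv_ZZ hcd hcs, fderiv_ZZ hcd hcs]
  have h1 := Complex.reCLM.integral_comp_comm (hxi (jn b (1, 0)))
  have h2 := Complex.imCLM.integral_comp_comm (hxi (jn b (Complex.I, 0)))
  simp only [Complex.reCLM_apply] at h1
  simp only [Complex.imCLM_apply] at h2
  rw [← h1, ← h2]
  simp_rw [dv_eq]
  rw [integral_add, integral_add, integral_finsetSum]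
  · rw [Finset.sum_eq_zero fun i _ => int_y hcd hcs x i, add_zero]
  · exact fun i _ => hyi _ i
  · exact Complex.reCLM.integrable_comp (hxi _)
  · exact Complex.imCLM.integrable_comp (hxi _)
  · exact (Complex.reCLM.integrable_comp (hxi _)).add (Complex.imCLM.integrable_comp (hxi _))
  · exact integrable_finsetSum _ fun i _ => hyi _ i

theorem int_dv (hcd : ContDiff ℝ 1 φ) (hcs : HasCompactSupport φ) (A : Set ℂ) : ∫ p in {p | xc p ∈ A}, dv φ p = ∫ x in A, dv2 (ZZ φ) x := by
  obtain ⟨e, he, hmp⟩ := Pool.Agent.TH73.MI.t_fub b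
  have h1 : {p : PP b | xc p ∈ A} = e ⁻¹' (A ×ˢ univ) := by
    ext p
    rw [mem_preimage, he p]
    simp
  have h2 : ∀ p, dv φ p = (fun q => dv φ (jn b q)) (e p) := by
    intro p
    simp only [he p, jn_mk]
  have h3 : ∫ p in {p | xc p ∈ A}, dv φ p = ∫ q in A ×ˢ univ, dv φ (jn b q) := by
    rw [h1, ← hmp.setIntegral_preimage_emb e.measurableEmbedding]
    refine integral_congr_ae (Eventually.of_forall fun p => ?_)
    exact h2 p
  rw [h3, Measure.volume_eq_prod, setIntegral_prod]
  · refine integral_congr_ae (Eventually.of_forall fun x => ?_)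
    simp only [Measure.restrict_univ]
    exact (dv2_ZZ hcd hcs x).symm
  · refine Integrable.integrableOn ?_
    refine Continuous.integrable_of_hasCompactSupport
      ((continuous_dv hcd).comp (jn b).continuous) ?_
    have hc : Continuous fun p : PP b => (xc p, yc p) :=
      Pool.Agent.TH73.MI.continuous_xc.prodMk continuous_yc'
    refine HasCompactSupport.intro (hcs.isCompact.image hc) fun q hq => ?_
    refine dv_zero fun h => hq ⟨_, h, ?_⟩
    change (xc (jn b q), yc (jn b q)) = q
    rw [xc_jn, yc_jn]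

theorem ZZ_zero {x : ℂ} (hx : x ∉ xc '' tsupport φ) : ZZ φ x = 0 := by
  unfold ZZ
  have h : ∀ y : Fin b → ℝ, xc (φ (jn b (x, y))) = 0 := by
    intro y
    rw [image_eq_zero_of_notMem_tsupport fun h => hx ⟨_, h, xc_jn _⟩]
    exact Pool.Agent.TH73.MI.xc_zero
  simp [h]

theorem tsupport_ZZ (hcs : HasCompactSupport φ) : tsupport (ZZ φ) ⊆ xc '' tsupport φ := by
  refine closure_minimal (fun x hx => ?_)
    (hcs.isCompact.image Pool.Agent.TH73.MI.continuous_xc).isClosed
  by_contra h
  exact hx (ZZ_zero h)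

theorem hcs_ZZ (hcs : HasCompactSupport φ) : HasCompactSupport (ZZ φ) :=
  HasCompactSupport.intro (hcs.isCompact.image Pool.Agent.TH73.MI.continuous_xc)
    fun _ hx => ZZ_zero hx

end gen

theorem norm_xc_le {b : ℕ} (ε : ℝ) (p : PP b) : ‖xc p‖ ≤ ‖sc ε p‖ := by
  have h : ‖xc p‖ ^ 2 ≤ ‖sc ε p‖ ^ 2 := by
    rw [EuclideanSpace.norm_sq_eq, Fin.sum_univ_succ, Fin.sum_univ_succ, ← Complex.normSq_eq_norm_sq,
      Complex.normSq_apply]
    have h0 : ‖(sc ε p) 0‖ ^ 2 = (xc p).re * (xc p).re := by
      rw [Real.norm_eq_abs, sq_abs, sq]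
      rfl
    have h1 : ‖(sc ε p) (Fin.succ 0)‖ ^ 2 = (xc p).im * (xc p).im := by
      rw [Real.norm_eq_abs, sq_abs, sq]
      rfl
    rw [h0, h1, ← add_assoc]
    exact le_add_of_nonneg_right (Finset.sum_nonneg fun i _ => sq_nonneg _)
  exact le_of_sq_le_sq h (norm_nonneg _)

theorem wt_pos_of_fib {m : ℕ} {x : ℂ} (h : (fib m x).Nonempty) : 0 < wt m x := by
  have ho : IsOpen (fib m x) := by
    have := (isOpen_Bq m).preimage (f := fun y : Fin (2 * m + 1) → ℝ => (x, y)) (by fun_prop)
    exact this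
  have h1 := ho.measure_pos volume h
  rw [vol_fib, ENNReal.ofReal_pos] at h1
  exact (pos_iff_pos_of_mul_pos h1).1 (NN_pos m)

theorem a2' : S_A2 := by
  intro m ε hε A hA C hC φ hφ
  have hN := NN_pos m
  set Y : ℂ → ℂ := fun x => (NN m)⁻¹ • ZZ φ x with hY
  have hZ := contDiff_ZZ hφ.cd hφ.cs
  have hsupp : ∀ x, ZZ φ x = 0 → Y x = 0 := fun x hx => by rw [hY]; simp only [hx, smul_zero]
  have hcs : HasCompactSupport Y := (hcs_ZZ hφ.cs).smul_left (f := fun _ => (NN m)⁻¹)
  have hs' : Function.support Y ⊆ Function.support (ZZ φ) := by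
    intro x hx
    rw [Function.mem_support] at hx ⊢
    exact fun h => hx (hsupp x h)
  have hsub : tsupport Y ⊆ xc '' tsupport φ := (closure_mono hs').trans (tsupport_ZZ hφ.cs)
  have hTW : TW (wt m) Y := by
    refine ⟨hZ.const_smul (NN m)⁻¹, hcs, fun x hx => ?_, fun x => ?_⟩
    · obtain ⟨p, hp, rfl⟩ := hsub hx
      exact wt_pos_of_fib ⟨yc p, hφ.sub hp⟩
    · have h1 : ‖ZZ φ x‖ ≤ NN m * wt m x := by
        unfold ZZ
        refine (norm_integral_le_integral_norm _).trans ?_
        have h2 : NN m * wt m x = ∫ y, (fib m x).indicator (fun _ => (1 : ℝ)) y := by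
          have ho : IsOpen (fib m x) := by
            have := (isOpen_Bq m).preimage (f := fun y : Fin (2 * m + 1) → ℝ => (x, y))
              (by fun_prop)
            exact this
          rw [integral_indicator_const _ ho.measurableSet, smul_eq_mul, mul_one, Measure.real,
            vol_fib, ENNReal.toReal_ofReal (NN_mul_wt_nonneg m x)]
        have ho : IsOpen (fib m x) := by
          have := (isOpen_Bq m).preimage (f := fun y : Fin (2 * m + 1) → ℝ => (x, y))
            (by fun_prop)
          exact this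
        rw [h2]
        refine integral_mono_of_nonneg (Eventually.of_forall fun y => norm_nonneg _) ?_
          (Eventually.of_forall fun y => ?_)
        · rw [integrable_indicator_iff ho.measurableSet]
          refine integrableOn_const ?_ 
          rw [vol_fib]
          exact ENNReal.ofReal_ne_top
        · by_cases hy : y ∈ fib m x
          · simp only [indicator_of_mem hy]
            exact (norm_xc_le ε _).trans (hφ.bd _)
          · simp only [indicator_of_notMem hy]
            have h3 : jn (2 * m + 1) (x, y) ∉ tsupport φ := by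
              intro h4
              have h5 := hφ.sub h4
              rw [mem_Bd, xc_jn, yc_jn] at h5
              exact hy h5
            rw [image_eq_zero_of_notMem_tsupport h3, Pool.Agent.TH73.MI.xc_zero, norm_zero]
      rw [hY]
      simp only [norm_smul, norm_inv, Real.norm_eq_abs, abs_of_pos hN]
      rw [inv_mul_le_iff₀ hN]
      exact h1
  have h := hC Y hTW
  have h1 : ∀ x, dv2 Y x = (NN m)⁻¹ * dv2 (ZZ φ) x := by
    intro x
    have h2 : fderiv ℝ Y x = (NN m)⁻¹ • fderiv ℝ (ZZ φ) x :=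
      (((hZ.differentiable (by norm_num)) x).hasFDerivAt.const_smul (NN m)⁻¹).fderiv
    unfold dv2
    rw [h2]
    simp only [smul_apply, Complex.smul_re, Complex.smul_im, smul_eq_mul]
    ring
  simp_rw [h1] at h
  rw [integral_const_mul, inv_mul_le_iff₀ hN, ← int_dv hφ.cd hφ.cs A] at h
  have h2 : ∫ p in cylO (Bd m) A, dv φ p = ∫ p in {p | xc p ∈ A}, dv φ p := by
    have h3 : cylO (Bd m) A = {p | xc p ∈ A} ∩ Bd m := by
      ext p
      exact ⟨fun h => ⟨h.2, h.1⟩, fun h => ⟨h.2, h.1⟩⟩
    rw [h3]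
    have hm : MeasurableSet {p : PP (2 * m + 1) | xc p ∈ A} :=
      Pool.Agent.TH73.MI.continuous_xc.measurable hA
    have hmB : MeasurableSet (Bd m) := by
      have hc : Continuous fun p : PP (2 * m + 1) => (xc p, yc p) :=
        Pool.Agent.TH73.MI.continuous_xc.prodMk continuous_yc'
      exact ((isOpen_Bq m).preimage hc).measurableSet
    refine (setIntegral_eq_of_subset_of_forall_sdiff_eq_zero hm inter_subset_left ?_).symm
    intro p hp
    refine dv_zero fun h4 => hp.2 ⟨hp.1, hφ.sub h4⟩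
  rw [h2]
  exact h

/-- **A2.** -/
theorem a2 (_c0 : S_C0) : S_A2 := a2'

end Pool.Agent.TH952.HU
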